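import Pool.Agent.helper22.RG9.Spec
import Pool.Agent.helper48.SLn.Gen

set_option autoImplicit false

namespace Pool.Agent.RG9

open Matrix Pool.Agent.H48SL Pool.Agent.UG

lemma CNV_zpow {n : ℕ} {i j : Fin n} (h : i ≠ j) (c : ℤ) : (xe i j 1 : SLZ n) ^ c = xe i j c := by
  unfold xe
  rw [← tv_zsmul_right (single_dot h 1) c]
  congr 1
  ext l
  by_cases hl : l = j
  · subst hl
    simp
  · simp [hl]

lemma CNV_mem {n : ℕ} {i j : Fin n} (h : i ≠ j) (g : SLZ n) :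
    g ∈ Subgroup.zpowers (xe i j 1 : SLZ n) ↔ ∃ c : ℤ, g = xe i j c := by
  rw [Subgroup.mem_zpowers_iff]
  constructor
  · rintro ⟨c, hc⟩
    exact ⟨c, by rw [← hc, CNV_zpow h]⟩
  · rintro ⟨c, hc⟩
    exact ⟨c, by rw [hc, CNV_zpow h]⟩

lemma CNV_com {n : ℕ} {i j k l : Fin n} (hij : i ≠ j) (hkl : k ≠ l) (hil : i ≠ l) (c d : ℤ) :
    (xe i j c * xe k l d * (xe i j c)⁻¹ * (xe k l d)⁻¹ : SLZ n) = xe i l (if j = k then c * d else 0) := by
  unfold xe
  rw [tv_commutator (single_dot hij c) (single_dot hkl d) (single_dot hil d)]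
  congr 1
  ext m
  by_cases hm : m = l
  · subst hm
    by_cases hjk : j = k
    · subst hjk
      simp
    · simp [hjk]
  · simp [hm]

lemma CNV_inj {n : ℕ} {i j : Fin n} (h : i ≠ j) : Function.Injective (fun c : ℤ => (xe i j c : SLZ n)) := by
  intro c d hcd
  have h1 : ((xe i j c : SLZ n) : Matrix (Fin n) (Fin n) ℤ) i j = ((xe i j d : SLZ n) : Matrix (Fin n) (Fin n) ℤ) i j := by
    have h2 : (xe i j c : SLZ n) = xe i j d := hcd
    rw [h2]
  unfold xe at h1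
  rw [tv_coe (single_dot h c), tv_coe (single_dot h d)] at h1
  simpa [vecMulVec_apply] using h1

theorem CNV : CNV_stmt := by
  intro n _
  refine ⟨fun i j => Subgroup.zpowers (xe i j 1 : SLZ n), ⟨?_, ?_⟩, ?_, ?_⟩
  · intro i j k l hij hkl hjk hil x hx y hy
    obtain ⟨c, rfl⟩ := (CNV_mem hij x).1 hx
    obtain ⟨d, rfl⟩ := (CNV_mem hkl y).1 hy
    have h := CNV_com hij hkl hil c d
    rw [if_neg hjk] at h
    have h0 : (xe i l 0 : SLZ n) = 1 := by
      rw [← CNV_zpow hil, zpow_zero]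
    rw [h0] at h
    rw [mul_inv_eq_one, mul_inv_eq_iff_eq_mul] at h
    exact h
  · intro i j k hij hjk hik
    apply le_antisymm
    · rw [Subgroup.zpowers_le]
      apply Subgroup.subset_closure
      refine ⟨xe i j 1, (CNV_mem hij _).2 ⟨1, rfl⟩, xe j k 1, (CNV_mem hjk _).2 ⟨1, rfl⟩, ?_⟩
      rw [CNV_com hij hjk hik, if_pos rfl, mul_one]
    · rw [Subgroup.closure_le]
      rintro g ⟨x, hx, y, hy, rfl⟩
      obtain ⟨c, rfl⟩ := (CNV_mem hij x).1 hx
      obtain ⟨d, rfl⟩ := (CNV_mem hjk y).1 hy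
      rw [CNV_com hij hjk hik]
      exact (CNV_mem hik _).2 ⟨_, rfl⟩
  · intro i j hij
    apply Set.infinite_of_injective_forall_mem (CNV_inj hij)
    intro c
    exact (CNV_mem hij _).2 ⟨c, rfl⟩
  · rw [eq_top_iff, ← ES_univ]
    apply Subgroup.closure_mono
    rintro g ⟨i, _, j, _, hij, c, rfl⟩
    exact ⟨i, j, hij, (CNV_mem hij _).2 ⟨c, rfl⟩⟩

end Pool.Agent.RG9
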