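import Pool.Agent.helper22.RG9.Spec3

/-!
# Project rg9 (MP_a2a22c_al), row UNG: a group generated by exponentials of an associatively nilpotent space is unipotent
-/

set_option autoImplicit false

namespace Pool.Agent.RG9

open Matrix Pool.Agent.H48SL Pool.Agent.UG

/-- the span of the products of at least `k` elements of `𝔲` -/
def UNG_N {n : ℕ} (𝔲 : Submodule ℚ (MQ n)) (k : ℕ) : Submodule ℚ (MQ n) :=
  Submodule.span ℚ {P | ∃ l : List (MQ n), (∀ X ∈ l, X ∈ 𝔲) ∧ k ≤ l.length ∧ l.prod = P}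

theorem UNG_le {n : ℕ} (𝔲 : Submodule ℚ (MQ n)) {j k : ℕ} (h : j ≤ k) : UNG_N 𝔲 k ≤ UNG_N 𝔲 j := by
  refine Submodule.span_mono ?_
  rintro P ⟨l, h1, h2, h3⟩
  exact ⟨l, h1, h.trans h2, h3⟩

theorem UNG_mul {n : ℕ} (𝔲 : Submodule ℚ (MQ n)) {j k : ℕ} {x y : MQ n} (hx : x ∈ UNG_N 𝔲 j) (hy : y ∈ UNG_N 𝔲 k) : x * y ∈ UNG_N 𝔲 (j + k) := by
  refine Submodule.span_induction (p := fun x _ => x * y ∈ UNG_N 𝔲 (j + k)) ?_ ?_ ?_ ?_ hx
  · rintro _ ⟨l, h1, h2, rfl⟩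
    refine Submodule.span_induction (p := fun y _ => l.prod * y ∈ UNG_N 𝔲 (j + k)) ?_ ?_ ?_ ?_ hy
    · rintro _ ⟨l', h1', h2', rfl⟩
      refine Submodule.subset_span ⟨l ++ l', ?_, ?_, List.prod_append⟩
      · intro X hX
        rcases List.mem_append.1 hX with h | h
        · exact h1 X h
        · exact h1' X h
      · rw [List.length_append]
        exact add_le_add h2 h2'
    · rw [mul_zero]
      exact Submodule.zero_mem _
    · intro a b _ _ ha hb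
      rw [mul_add]
      exact Submodule.add_mem _ ha hb
    · intro c a _ ha
      rw [mul_smul_comm]
      exact Submodule.smul_mem _ c ha
  · rw [zero_mul]
    exact Submodule.zero_mem _
  · intro a b _ _ ha hb
    rw [add_mul]
    exact Submodule.add_mem _ ha hb
  · intro c a _ ha
    rw [smul_mul_assoc]
    exact Submodule.smul_mem _ c ha

theorem UNG_pow {n : ℕ} (𝔲 : Submodule ℚ (MQ n)) {x : MQ n} (hx : x ∈ UNG_N 𝔲 1) (k : ℕ) : x ^ k ∈ UNG_N 𝔲 k := by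
  induction k with
  | zero =>
    rw [pow_zero]
    exact Submodule.subset_span ⟨[], by simp, le_rfl, List.prod_nil⟩
  | succ k ih =>
    rw [pow_succ]
    exact UNG_mul 𝔲 ih hx

theorem UNG (hLGF : LGF_stmt) : UNG_stmt := by
  intro n 𝔲 hA S hS g hg
  obtain ⟨N, hN⟩ := hA
  obtain ⟨h1, -, h3, -⟩ := hLGF n
  have hzero : ∀ x ∈ UNG_N 𝔲 N, x = 0 := by
    intro x hx
    have h4 : UNG_N 𝔲 N ≤ ⊥ := by
      refine Submodule.span_le.2 ?_
      rintro _ ⟨l, h5, h6, rfl⟩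
      exact hN l h5 h6
    exact (Submodule.mem_bot ℚ).1 (h4 hx)
  have hnil : ∀ x ∈ UNG_N 𝔲 1, IsNilpotent x := fun x hx => ⟨N, hzero _ (UNG_pow 𝔲 hx N)⟩
  have hsub : ∀ x ∈ 𝔲, x ∈ UNG_N 𝔲 1 := by
    intro x hx
    refine Submodule.subset_span ⟨[x], ?_, le_rfl, List.prod_singleton⟩
    intro X hX
    rw [List.mem_singleton.1 hX]
    exact hx
  have hexp : ∀ x ∈ UNG_N 𝔲 1, IsNilpotent.exp x - 1 ∈ UNG_N 𝔲 1 := by
    intro x hx
    have h4 : x ^ (N + 1) = 0 := by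
      rw [pow_succ, hzero _ (UNG_pow 𝔲 hx N), zero_mul]
    rw [IsNilpotent.exp_eq_sum h4, Finset.sum_range_succ']
    have h5 : ((Nat.factorial 0 : ℚ)⁻¹ • x ^ 0 : MQ n) = 1 := by
      rw [Nat.factorial_zero, Nat.cast_one, inv_one, one_smul, pow_zero]
    rw [h5, add_sub_cancel_right]
    refine Submodule.sum_mem _ fun i _ => Submodule.smul_mem _ _ ?_
    exact UNG_le 𝔲 (Nat.le_add_left 1 i) (UNG_pow 𝔲 hx (i + 1))
  have hmul : ∀ a b : SLZ n, qg a - 1 ∈ UNG_N 𝔲 1 → qg b - 1 ∈ UNG_N 𝔲 1 → qg (a * b) - 1 ∈ UNG_N 𝔲 1 := by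
    intro a b ha hb
    have h4 : qg (a * b) - 1 = (qg a - 1) * (qg b - 1) + (qg a - 1) + (qg b - 1) := by
      rw [qg_mul]
      noncomm_ring
    rw [h4]
    exact Submodule.add_mem _ (Submodule.add_mem _ (UNG_le 𝔲 (by norm_num) (UNG_mul 𝔲 ha hb)) ha) hb
  have hmain : qg g - 1 ∈ UNG_N 𝔲 1 ∧ qg g⁻¹ - 1 ∈ UNG_N 𝔲 1 := by
    refine Subgroup.closure_induction (p := fun g _ => qg g - 1 ∈ UNG_N 𝔲 1 ∧ qg g⁻¹ - 1 ∈ UNG_N 𝔲 1) ?_ ?_ ?_ ?_ hg
    · intro x hx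
      obtain ⟨hu, hl⟩ := hS x hx
      have h4 := (h1 x hu).2.1
      have h5 := h3 x hu
      have h6 := (h1 x⁻¹ h5.1).2.1
      rw [← h4, ← h6, h5.2]
      exact ⟨hexp _ (hsub _ hl), hexp _ (hsub _ (𝔲.neg_mem hl))⟩
    · rw [inv_one, qg_one, sub_self]
      exact ⟨Submodule.zero_mem _, Submodule.zero_mem _⟩
    · intro a b _ _ ha hb
      refine ⟨hmul a b ha.1 hb.1, ?_⟩
      rw [_root_.mul_inv_rev]
      exact hmul _ _ hb.2 ha.2
    · intro a _ ha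
      rw [inv_inv]
      exact ⟨ha.2, ha.1⟩
  exact hnil _ hmain.1

end Pool.Agent.RG9
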